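import Pool.Agent.Q275.RT.Stm

set_option autoImplicit false

namespace Pool.Agent.Q295.RT

open Finset Pool.Agent.Q275.RT

theorem mem_PX' {X p : ℕ} : p ∈ PX X ↔ (X < p ∧ p ≤ 4 * X) ∧ p.Prime := by
  rw [PX, mem_filter, mem_Ioc]

theorem sum_rX (X : ℕ) : (PX X).card ^ 2 ≤ ∑ s ∈ range (8 * X + 1), rX X s := by
  classical
  set S : Finset (Σ _ : ℕ, ℕ) :=
    (range (8 * X + 1)).sigma (fun s => (PX X).filter (fun p => s - p ∈ PX X)) with hS
  have hcard : ∑ s ∈ range (8 * X + 1), rX X s = S.card := by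
    rw [hS, card_sigma]
    rfl
  rw [hcard, sq, ← card_product]
  apply card_le_card_of_injOn (fun x => (⟨x.1 + x.2, x.1⟩ : Σ _ : ℕ, ℕ))
  · rintro ⟨p, q⟩ hx
    rw [mem_coe, mem_product] at hx
    obtain ⟨h1, h2⟩ := hx
    rw [mem_coe, hS, mem_sigma, mem_range, mem_filter]
    have h3 := mem_PX'.mp h1
    have h4 := mem_PX'.mp h2
    refine ⟨?_, h1, ?_⟩
    · show p + q < 8 * X + 1
      simp only at h3 h4
      omega
    · show p + q - p ∈ PX X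
      rwa [Nat.add_sub_cancel_left]
  · rintro ⟨p, q⟩ _ ⟨p', q'⟩ _ hxy
    have e0 : (⟨p + q, p⟩ : Σ _ : ℕ, ℕ) = ⟨p' + q', p'⟩ := hxy
    rw [Sigma.mk.injEq] at e0
    obtain ⟨e1, e2⟩ := e0
    have e3 := eq_of_heq e2
    have e4 : q = q' := by omega
    subst e3 e4
    rfl

theorem log_bound {X : ℕ} (hX : (64 * 400 ^ 3 * 12 ^ 6) ^ 2 ≤ X) :
    Real.log X ^ 6 * (64 * 400 ^ 3) ≤ X := by
  have hX1 : 1 ≤ X := le_trans (Nat.one_le_pow _ _ (by norm_num)) hX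
  have hXr : (1 : ℝ) ≤ X := by exact_mod_cast hX1
  have hX0 : (0 : ℝ) ≤ X := by linarith
  have hlog : 0 ≤ Real.log X := Real.log_nonneg hXr
  have h1 := Real.log_le_rpow_div (x := (X : ℝ)) hX0 (ε := 1 / 12) (by norm_num)
  have h2 : Real.log X ^ 6 ≤ ((X : ℝ) ^ (1 / 12 : ℝ) / (1 / 12)) ^ 6 :=
    pow_le_pow_left₀ hlog h1 6
  have h3 : ((X : ℝ) ^ (1 / 12 : ℝ) / (1 / 12)) ^ 6 = 12 ^ 6 * Real.sqrt X := by
    rw [div_pow, ← Real.rpow_natCast, ← Real.rpow_mul hX0, Real.sqrt_eq_rpow]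
    norm_num
    ring
  rw [h3] at h2
  have h4 : (64 * 400 ^ 3 * 12 ^ 6 : ℝ) ≤ Real.sqrt X := by
    apply Real.le_sqrt_of_sq_le
    exact_mod_cast hX
  have h5 : Real.sqrt X * Real.sqrt X = X := Real.mul_self_sqrt hX0
  have h6 : 0 ≤ Real.sqrt X := Real.sqrt_nonneg _
  calc Real.log X ^ 6 * (64 * 400 ^ 3) ≤ (12 ^ 6 * Real.sqrt X) * (64 * 400 ^ 3) := by gcongr
    _ = (64 * 400 ^ 3 * 12 ^ 6) * Real.sqrt X := by ring
    _ ≤ Real.sqrt X * Real.sqrt X := by gcongr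
    _ = X := h5

theorem den : S_ENG → S_DEN := by
  classical
  rintro ⟨C, hC, X₀, hE⟩
  obtain ⟨n0, hmp⟩ := Pool.Agent.H312R2.many_primes
  refine ⟨1 / (5120 * C), by positivity, ?_,
    4 * (X₀ + n0 + (64 * 400 ^ 3 * 12 ^ 6) ^ 2 + 4), fun x hx => ?_⟩
  · rw [div_le_one (by positivity)]
    linarith
  generalize hM : (64 * 400 ^ 3 * 12 ^ 6) ^ 2 = M at hx
  obtain ⟨X, hXdef⟩ : ∃ X : ℕ, X = x / 4 := ⟨_, rfl⟩
  have hXX : X₀ ≤ X := by omega
  have hXn : n0 ≤ X := by omega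
  have hXM : M ≤ X := by omega
  have hX4 : 4 ≤ X := by omega
  have hx4 : 4 * X ≤ x := by omega
  have hx5 : x ≤ 5 * X := by omega
  have hXr : (4 : ℝ) ≤ X := by exact_mod_cast hX4
  have hX0 : (0 : ℝ) < X := by linarith
  set l : ℝ := Real.log X with hl
  have hl0 : 0 < l := Real.log_pos (by linarith)
  have hl6 : l ^ 6 * (64 * 400 ^ 3) ≤ X := log_bound (by rw [hM]; exact hXM)
  -- the number of primes
  set N : ℝ := ((PX X).card : ℝ) with hN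
  have hN1 : (X : ℝ) ≤ 4 * N * l := by
    have h1 : (X : ℝ) / 2 ≤ N * Real.log (4 * X) := hmp X hXn
    have h2 : Real.log (4 * X) ≤ 2 * l := by
      rw [Real.log_mul (by norm_num) hX0.ne', hl]
      have := Real.log_le_log (by norm_num) hXr
      linarith
    have h3 : N * Real.log (4 * X) ≤ N * (2 * l) :=
      mul_le_mul_of_nonneg_left h2 (Nat.cast_nonneg _)
    linarith
  have hN2 : (X : ℝ) ^ 2 ≤ 16 * (N ^ 2 * l ^ 2) := by
    have := pow_le_pow_left₀ hX0.le hN1 2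
    calc (X : ℝ) ^ 2 ≤ (4 * N * l) ^ 2 := this
      _ = 16 * (N ^ 2 * l ^ 2) := by ring
  have hsum : N ^ 2 ≤ ∑ s ∈ range (8 * X + 1), (rX X s : ℝ) := by
    have h1 : (((PX X).card ^ 2 : ℕ) : ℝ) ≤ ((∑ s ∈ range (8 * X + 1), rX X s : ℕ) : ℝ) :=
      Nat.cast_le.mpr (sum_rX X)
    rw [Nat.cast_pow, Nat.cast_sum] at h1
    exact h1
  set H : Finset ℕ := (range (8 * X + 1)).filter
    (fun s => (X : ℝ) ≤ 400 * ((rX X s : ℝ) * l ^ 2)) with hH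
  have hsplit : ∑ s ∈ range (8 * X + 1), (rX X s : ℝ) = ∑ s ∈ H, (rX X s : ℝ) +
      ∑ s ∈ (range (8 * X + 1)).filter (fun s => ¬ (X : ℝ) ≤ 400 * ((rX X s : ℝ) * l ^ 2)),
        (rX X s : ℝ) := (sum_filter_add_sum_filter_not _ _ _).symm
  have hsmall : (∑ s ∈ (range (8 * X + 1)).filter
      (fun s => ¬ (X : ℝ) ≤ 400 * ((rX X s : ℝ) * l ^ 2)), (rX X s : ℝ)) * l ^ 2 ≤
      (8 * X + 1) * (X / 400) := by
    rw [sum_mul]
    calc ∑ s ∈ (range (8 * X + 1)).filter (fun s => ¬ (X : ℝ) ≤ 400 * ((rX X s : ℝ) * l ^ 2)),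
          (rX X s : ℝ) * l ^ 2
        ≤ ∑ s ∈ (range (8 * X + 1)).filter
            (fun s => ¬ (X : ℝ) ≤ 400 * ((rX X s : ℝ) * l ^ 2)), (X : ℝ) / 400 := by
          apply sum_le_sum
          intro s hs
          have := (mem_filter.mp hs).2
          push Not at this
          linarith
      _ ≤ ∑ s ∈ range (8 * X + 1), (X : ℝ) / 400 :=
          sum_le_sum_of_subset_of_nonneg (filter_subset _ _) (fun _ _ _ => by positivity)
      _ = (8 * X + 1) * (X / 400) := by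
          rw [sum_const, card_range, nsmul_eq_mul]
          push_cast
          ring
  set S' : ℝ := ∑ s ∈ H, (rX X s : ℝ) with hS'
  have hS1 : (X : ℝ) ^ 2 ≤ 32 * (S' * l ^ 2) := by
    have h1 : N ^ 2 * l ^ 2 ≤ (∑ s ∈ range (8 * X + 1), (rX X s : ℝ)) * l ^ 2 :=
      mul_le_mul_of_nonneg_right hsum (by positivity)
    rw [hsplit, add_mul] at h1
    have h2 : (8 * (X : ℝ) + 1) * (X / 400) ≤ X ^ 2 / 32 := by nlinarith
    linarith
  have hCS : S' ^ 2 ≤ (H.card : ℝ) * ∑ s ∈ H, (rX X s : ℝ) ^ 2 :=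
    sq_sum_le_card_mul_sum_sq
  have hHE : ∑ s ∈ H, (rX X s : ℝ) ^ 2 ≤ ∑ s ∈ range (8 * X + 1), (rX X s : ℝ) ^ 2 :=
    sum_le_sum_of_subset_of_nonneg (filter_subset _ _) (fun _ _ _ => by positivity)
  have hcard : (X : ℝ) ≤ 1024 * C * H.card := by
    have h1 : (S' * l ^ 2) ^ 2 ≤ (H.card : ℝ) * (C * (X : ℝ) ^ 3) := by
      calc (S' * l ^ 2) ^ 2 = S' ^ 2 * l ^ 4 := by ring
        _ ≤ ((H.card : ℝ) * ∑ s ∈ H, (rX X s : ℝ) ^ 2) * l ^ 4 := by gcongr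
        _ ≤ ((H.card : ℝ) * ∑ s ∈ range (8 * X + 1), (rX X s : ℝ) ^ 2) * l ^ 4 := by gcongr
        _ = (H.card : ℝ) * ((∑ s ∈ range (8 * X + 1), (rX X s : ℝ) ^ 2) * l ^ 4) := by ring
        _ ≤ (H.card : ℝ) * (C * (X : ℝ) ^ 3) :=
            mul_le_mul_of_nonneg_left (hE X hXX) (Nat.cast_nonneg _)
    have h2 : ((X : ℝ) ^ 2) ^ 2 ≤ (32 * (S' * l ^ 2)) ^ 2 := pow_le_pow_left₀ (by positivity) hS1 2
    have h3 : (X : ℝ) * (X : ℝ) ^ 3 ≤ (1024 * C * H.card) * (X : ℝ) ^ 3 := by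
      calc (X : ℝ) * (X : ℝ) ^ 3 = ((X : ℝ) ^ 2) ^ 2 := by ring
        _ ≤ (32 * (S' * l ^ 2)) ^ 2 := h2
        _ = 1024 * (S' * l ^ 2) ^ 2 := by ring
        _ ≤ 1024 * ((H.card : ℝ) * (C * (X : ℝ) ^ 3)) := by gcongr
        _ = (1024 * C * H.card) * (X : ℝ) ^ 3 := by ring
    exact le_of_mul_le_mul_right h3 (by positivity)
  -- the elements of `H`
  have hmem : ∀ s ∈ H, (X : ℝ) ≤ 400 * ((rX X s : ℝ) * l ^ 2) ∧ 2 * X < s ∧ s ≤ 8 * X ∧
      2 * (s / 2) = s := by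
    intro s hs
    rw [hH, mem_filter, mem_range] at hs
    obtain ⟨h1, h2⟩ := hs
    have h3 : rX X s ≠ 0 := by
      intro h0
      rw [h0] at h2
      norm_num at h2
      linarith
    rw [rX, Finset.card_ne_zero] at h3
    obtain ⟨p, hp⟩ := h3
    rw [mem_filter] at hp
    have h4 := mem_PX'.mp hp.1
    have h5 := mem_PX'.mp hp.2
    have h6 : p % 2 = 1 := by
      rcases h4.2.eq_two_or_odd with h | h
      · omega
      · exact h
    have h7 : (s - p) % 2 = 1 := by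
      rcases h5.2.eq_two_or_odd with h | h
      · omega
      · exact h
    refine ⟨h2, by omega, by omega, by omega⟩
  refine ⟨H.image (fun s => s / 2), ?_, ?_⟩
  · intro t ht
    rw [mem_image] at ht
    obtain ⟨s, hs, rfl⟩ := ht
    obtain ⟨h1, h2, h3, h4⟩ := hmem s hs
    refine ⟨by omega, by omega, ?_⟩
    show (2 * (s / 2)) ^ 2 ≤ rep (2 * (s / 2)) ^ 3
    rw [h4]
    have h5 : rX X s ≤ rep s := by
      apply card_le_card
      intro p hp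
      rw [mem_filter] at hp
      have h6 := mem_PX'.mp hp.1
      have h7 := mem_PX'.mp hp.2
      rw [mem_filter, mem_range]
      exact ⟨by omega, h6.2, h7.2⟩
    have h6 : (X : ℝ) ^ 3 ≤ (400 * ((rX X s : ℝ) * l ^ 2)) ^ 3 := pow_le_pow_left₀ hX0.le h1 3
    have h7 : (64 * (X : ℝ) ^ 2) * (400 ^ 3 * l ^ 6) ≤ (rX X s : ℝ) ^ 3 * (400 ^ 3 * l ^ 6) := by
      calc (64 * (X : ℝ) ^ 2) * (400 ^ 3 * l ^ 6) = (l ^ 6 * (64 * 400 ^ 3)) * (X : ℝ) ^ 2 := by ring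
        _ ≤ X * (X : ℝ) ^ 2 := by gcongr
        _ = (X : ℝ) ^ 3 := by ring
        _ ≤ (400 * ((rX X s : ℝ) * l ^ 2)) ^ 3 := h6
        _ = (rX X s : ℝ) ^ 3 * (400 ^ 3 * l ^ 6) := by ring
    have h8 : 64 * (X : ℝ) ^ 2 ≤ (rX X s : ℝ) ^ 3 := le_of_mul_le_mul_right h7 (by positivity)
    have h9 : 64 * X ^ 2 ≤ rX X s ^ 3 := by exact_mod_cast h8
    calc s ^ 2 ≤ (8 * X) ^ 2 := Nat.pow_le_pow_left h3 2
      _ = 64 * X ^ 2 := by ring
      _ ≤ rX X s ^ 3 := h9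
      _ ≤ rep s ^ 3 := Nat.pow_le_pow_left h5 3
  · have h1 : (H.image (fun s => s / 2)).card = H.card := by
      apply card_image_of_injOn
      intro s hs s' hs' h
      have h2 := (hmem s hs).2.2.2
      have h3 := (hmem s' hs').2.2.2
      have h4 : s / 2 = s' / 2 := h
      omega
    rw [h1, one_div, inv_mul_le_iff₀ (by positivity)]
    have h2 : (x : ℝ) ≤ 5 * X := by exact_mod_cast hx5
    linarith

end Pool.Agent.Q295.RT
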