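import Pool.Agent.Q275.RT.Stm

set_option autoImplicit false

namespace Pool.Agent.Q295.RT

open Finset Pool.Agent.Q275.RT

/-- the primes `n` in `(X, 4 X]` for which `n + h` is prime -/
def rho (X h : ℕ) : Finset ℕ := (Ioc X (X + 3 * X)).filter (fun n => n.Prime ∧ (n + h).Prime)

theorem mem_PX {X p : ℕ} : p ∈ PX X ↔ (X < p ∧ p ≤ 4 * X) ∧ p.Prime := by
  rw [PX, mem_filter, mem_Ioc]

theorem energy (X : ℕ) : ∑ s ∈ range (8 * X + 1), rX X s ^ 2 ≤
    (3 * X) ^ 2 + 2 * ∑ h ∈ Icc 1 (3 * X), (rho X h).card ^ 2 := by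
  classical
  set A : ℕ → Finset ℕ := fun s => (PX X).filter (fun p => s - p ∈ PX X) with hA
  set S : Finset (Σ _ : ℕ, ℕ × ℕ) := (range (8 * X + 1)).sigma (fun s => A s ×ˢ A s) with hS
  have hcard : ∑ s ∈ range (8 * X + 1), rX X s ^ 2 = S.card := by
    rw [hS, card_sigma]
    exact sum_congr rfl fun s _ => by rw [card_product, rX, sq]
  set B : Finset (Σ _ : ℕ, ℕ × ℕ) := (Icc 1 (3 * X)).sigma (fun h => rho X h ×ˢ rho X h) with hB
  have hBcard : B.card = ∑ h ∈ Icc 1 (3 * X), (rho X h).card ^ 2 := by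
    rw [hB, card_sigma]
    exact sum_congr rfl fun s _ => by rw [card_product, sq]
  have hmem : ∀ s p p' : ℕ, (⟨s, p, p'⟩ : Σ _ : ℕ, ℕ × ℕ) ∈ S → p ∈ PX X ∧ s - p ∈ PX X ∧
      p' ∈ PX X ∧ s - p' ∈ PX X := by
    intro s p p' hx
    rw [hS, mem_sigma, mem_product, hA] at hx
    simp only [mem_filter] at hx
    exact ⟨hx.2.1.1, hx.2.1.2, hx.2.2.1, hx.2.2.2⟩
  have hsplit : S ⊆ (S.filter fun x => x.2.1 = x.2.2) ∪
      ((S.filter fun x => x.2.1 < x.2.2) ∪ (S.filter fun x => x.2.2 < x.2.1)) := by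
    intro x hx
    rw [mem_union, mem_union, mem_filter, mem_filter, mem_filter]
    rcases lt_trichotomy x.2.1 x.2.2 with h | h | h
    · exact Or.inr (Or.inl ⟨hx, h⟩)
    · exact Or.inl ⟨hx, h⟩
    · exact Or.inr (Or.inr ⟨hx, h⟩)
  have h1 : (S.filter fun x => x.2.1 = x.2.2).card ≤ (3 * X) ^ 2 := by
    have hPX : (PX X).card ≤ 3 * X := by
      refine (card_filter_le _ _).trans ?_
      rw [Nat.card_Ioc]
      omega
    calc (S.filter fun x => x.2.1 = x.2.2).card ≤ (PX X ×ˢ PX X).card := by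
          apply card_le_card_of_injOn (fun x => (x.2.1, x.1 - x.2.1))
          · rintro ⟨s, p, p'⟩ hx
            rw [mem_coe, mem_filter] at hx
            have := hmem _ _ _ hx.1
            exact mem_coe.mpr (mem_product.mpr ⟨this.1, this.2.1⟩)
          · rintro ⟨s, p, p'⟩ hx ⟨s2, q, q'⟩ hy hxy
            rw [mem_coe, mem_filter] at hx hy
            have h3 := hmem _ _ _ hx.1
            have h4 := hmem _ _ _ hy.1
            simp only [Prod.mk.injEq] at hxy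
            rw [mem_PX, mem_PX, mem_PX, mem_PX] at h3 h4
            have hx2 : p = p' := hx.2
            have hy2 : q = q' := hy.2
            have e1 : p = q := hxy.1
            have e2 : s = s2 := by omega
            have e3 : p' = q' := by omega
            subst e1 e2 e3
            rfl
      _ = (PX X).card * (PX X).card := card_product _ _
      _ ≤ (3 * X) ^ 2 := by rw [sq]; exact Nat.mul_le_mul hPX hPX
  have h2 : (S.filter fun x => x.2.1 < x.2.2).card ≤ B.card := by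
    apply card_le_card_of_injOn
      (fun x => (⟨x.2.2 - x.2.1, (x.2.1, x.1 - x.2.2)⟩ : Σ _ : ℕ, ℕ × ℕ))
    · rintro ⟨s, p, p'⟩ hx
      rw [mem_coe, mem_filter] at hx
      have h3 := hmem _ _ _ hx.1
      rw [mem_PX, mem_PX, mem_PX, mem_PX] at h3
      have hlt : p < p' := hx.2
      rw [mem_coe, hB, mem_sigma, mem_product, mem_Icc]
      refine ⟨⟨?_, ?_⟩, ?_, ?_⟩
      · show 1 ≤ p' - p
        omega
      · show p' - p ≤ 3 * X
        omega
      · show p ∈ rho X (p' - p)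
        rw [rho, mem_filter, mem_Ioc]
        refine ⟨by omega, h3.1.2, ?_⟩
        have : p + (p' - p) = p' := by omega
        rw [this]
        exact h3.2.2.1.2
      · show s - p' ∈ rho X (p' - p)
        rw [rho, mem_filter, mem_Ioc]
        refine ⟨by omega, h3.2.2.2.2, ?_⟩
        have : s - p' + (p' - p) = s - p := by omega
        rw [this]
        exact h3.2.1.2
    · rintro ⟨s, p, p'⟩ hx ⟨s2, q, q'⟩ hy hxy
      rw [mem_coe, mem_filter] at hx hy
      have h3 := hmem _ _ _ hx.1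
      have h4 := hmem _ _ _ hy.1
      rw [mem_PX, mem_PX, mem_PX, mem_PX] at h3 h4
      have hx2 : p < p' := hx.2
      have hy2 : q < q' := hy.2
      have e0 : (⟨p' - p, (p, s - p')⟩ : Σ _ : ℕ, ℕ × ℕ) = ⟨q' - q, (q, s2 - q')⟩ := hxy
      rw [Sigma.mk.injEq] at e0
      obtain ⟨e1, e2⟩ := e0
      have e3 := eq_of_heq e2
      rw [Prod.mk.injEq] at e3
      have e4 : p = q := e3.1
      have e5 : p' = q' := by omega
      have e6 : s = s2 := by omega
      subst e4 e5 e6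
      rfl
  have h3 : (S.filter fun x => x.2.2 < x.2.1).card ≤ B.card := by
    apply card_le_card_of_injOn
      (fun x => (⟨x.2.1 - x.2.2, (x.2.2, x.1 - x.2.1)⟩ : Σ _ : ℕ, ℕ × ℕ))
    · rintro ⟨s, p', p⟩ hx
      rw [mem_coe, mem_filter] at hx
      have h3 := hmem _ _ _ hx.1
      rw [mem_PX, mem_PX, mem_PX, mem_PX] at h3
      have hlt : p < p' := hx.2
      rw [mem_coe, hB, mem_sigma, mem_product, mem_Icc]
      refine ⟨⟨?_, ?_⟩, ?_, ?_⟩
      · show 1 ≤ p' - p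
        omega
      · show p' - p ≤ 3 * X
        omega
      · show p ∈ rho X (p' - p)
        rw [rho, mem_filter, mem_Ioc]
        refine ⟨by omega, h3.2.2.1.2, ?_⟩
        have : p + (p' - p) = p' := by omega
        rw [this]
        exact h3.1.2
      · show s - p' ∈ rho X (p' - p)
        rw [rho, mem_filter, mem_Ioc]
        refine ⟨by omega, h3.2.1.2, ?_⟩
        have : s - p' + (p' - p) = s - p := by omega
        rw [this]
        exact h3.2.2.2.2
    · rintro ⟨s, p', p⟩ hx ⟨s2, q', q⟩ hy hxy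
      rw [mem_coe, mem_filter] at hx hy
      have h3 := hmem _ _ _ hx.1
      have h4 := hmem _ _ _ hy.1
      rw [mem_PX, mem_PX, mem_PX, mem_PX] at h3 h4
      have hx2 : p < p' := hx.2
      have hy2 : q < q' := hy.2
      have e0 : (⟨p' - p, (p, s - p')⟩ : Σ _ : ℕ, ℕ × ℕ) = ⟨q' - q, (q, s2 - q')⟩ := hxy
      rw [Sigma.mk.injEq] at e0
      obtain ⟨e1, e2⟩ := e0
      have e3 := eq_of_heq e2
      rw [Prod.mk.injEq] at e3
      have e4 : p = q := e3.1
      have e5 : p' = q' := by omega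
      have e6 : s = s2 := by omega
      subst e4 e5 e6
      rfl
  rw [hcard, ← hBcard]
  have h4 := card_le_card hsplit
  have h5 := card_union_le (S.filter fun x => x.2.1 = x.2.2)
    ((S.filter fun x => x.2.1 < x.2.2) ∪ (S.filter fun x => x.2.2 < x.2.1))
  have h6 := card_union_le (S.filter fun x => x.2.1 < x.2.2) (S.filter fun x => x.2.2 < x.2.1)
  omega

theorem eng : S_SGF → S_ENG := by
  rintro ⟨C₄, hC₄, h4⟩
  obtain ⟨C, hC, u0, hps⟩ := Pool.Agent.H357R2.SI.pair_sieve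
  refine ⟨9 * 256 + 54 * C ^ 2 * C₄, ?_, max 2 u0, fun X hX => ?_⟩
  · have : 0 ≤ 54 * C ^ 2 * C₄ := by positivity
    linarith
  have hX2 : 2 ≤ X := (le_max_left _ _).trans hX
  have hXu : u0 ≤ 3 * X := by
    have := (le_max_right 2 u0).trans hX
    omega
  have hXr : (2 : ℝ) ≤ X := by exact_mod_cast hX2
  have hlog : 0 < Real.log X := Real.log_pos (by linarith)
  have hlog3 : Real.log X ≤ Real.log (((3 * X : ℕ) : ℝ)) := by
    apply Real.log_le_log (by linarith)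
    push_cast
    linarith
  have hl4 : Real.log X ^ 4 ≤ 256 * X := by
    have h1 := Real.log_le_rpow_div (x := (X : ℝ)) (by positivity) (ε := 1 / 4) (by norm_num)
    have h2 : Real.log X ^ 4 ≤ ((X : ℝ) ^ (1 / 4 : ℝ) / (1 / 4)) ^ 4 :=
      pow_le_pow_left₀ hlog.le h1 4
    have h3 : ((X : ℝ) ^ (1 / 4 : ℝ) / (1 / 4)) ^ 4 = 256 * X := by
      rw [div_pow, ← Real.rpow_natCast, ← Real.rpow_mul (by positivity)]
      norm_num
      ring
    rwa [h3] at h2
  have hE : (∑ s ∈ range (8 * X + 1), (rX X s : ℝ) ^ 2) ≤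
      (3 * X : ℝ) ^ 2 + 2 * ∑ h ∈ Icc 1 (3 * X), ((rho X h).card : ℝ) ^ 2 := by
    exact_mod_cast energy X
  have hrho : ∀ h ∈ Icc 1 (3 * X), ((rho X h).card : ℝ) ^ 2 * Real.log X ^ 4 ≤
      C ^ 2 * (9 * (X : ℝ) ^ 2) * Pool.Agent.H357R2.SI.sg h ^ 4 := by
    intro h hh
    rw [mem_Icc] at hh
    have h1 := hps h X (3 * X) (by omega) hXu
    have hl3 : 0 < Real.log (((3 * X : ℕ) : ℝ)) := lt_of_lt_of_le hlog hlog3
    rw [le_div_iff₀ (by positivity)] at h1
    have h2 : ((rho X h).card : ℝ) * Real.log X ^ 2 ≤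
        C * Pool.Agent.H357R2.SI.sg h ^ 2 * (3 * X) := by
      calc ((rho X h).card : ℝ) * Real.log X ^ 2
          ≤ ((rho X h).card : ℝ) * Real.log (((3 * X : ℕ) : ℝ)) ^ 2 := by gcongr
        _ ≤ C * Pool.Agent.H357R2.SI.sg h ^ 2 * ((3 * X : ℕ) : ℝ) := h1
        _ = C * Pool.Agent.H357R2.SI.sg h ^ 2 * (3 * X) := by push_cast; ring
    calc ((rho X h).card : ℝ) ^ 2 * Real.log X ^ 4
        = (((rho X h).card : ℝ) * Real.log X ^ 2) ^ 2 := by ring
      _ ≤ (C * Pool.Agent.H357R2.SI.sg h ^ 2 * (3 * X)) ^ 2 :=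
          pow_le_pow_left₀ (by positivity) h2 2
      _ = C ^ 2 * (9 * (X : ℝ) ^ 2) * Pool.Agent.H357R2.SI.sg h ^ 4 := by ring
  have hsum : (∑ h ∈ Icc 1 (3 * X), ((rho X h).card : ℝ) ^ 2) * Real.log X ^ 4 ≤
      27 * C ^ 2 * C₄ * (X : ℝ) ^ 3 := by
    rw [sum_mul]
    calc ∑ h ∈ Icc 1 (3 * X), ((rho X h).card : ℝ) ^ 2 * Real.log X ^ 4
        ≤ ∑ h ∈ Icc 1 (3 * X), C ^ 2 * (9 * (X : ℝ) ^ 2) * Pool.Agent.H357R2.SI.sg h ^ 4 :=
          sum_le_sum hrho
      _ = C ^ 2 * (9 * (X : ℝ) ^ 2) * ∑ h ∈ Icc 1 (3 * X), Pool.Agent.H357R2.SI.sg h ^ 4 := by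
          rw [mul_sum]
      _ ≤ C ^ 2 * (9 * (X : ℝ) ^ 2) * (C₄ * ((3 * X : ℕ) : ℝ)) :=
          mul_le_mul_of_nonneg_left (h4 _) (by positivity)
      _ = 27 * C ^ 2 * C₄ * (X : ℝ) ^ 3 := by push_cast; ring
  calc (∑ s ∈ range (8 * X + 1), (rX X s : ℝ) ^ 2) * Real.log X ^ 4
      ≤ ((3 * X : ℝ) ^ 2 + 2 * ∑ h ∈ Icc 1 (3 * X), ((rho X h).card : ℝ) ^ 2) *
        Real.log X ^ 4 := mul_le_mul_of_nonneg_right hE (by positivity)
    _ = 9 * (X : ℝ) ^ 2 * Real.log X ^ 4 +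
        2 * ((∑ h ∈ Icc 1 (3 * X), ((rho X h).card : ℝ) ^ 2) * Real.log X ^ 4) := by ring
    _ ≤ 9 * (X : ℝ) ^ 2 * (256 * X) + 2 * (27 * C ^ 2 * C₄ * (X : ℝ) ^ 3) := by
        gcongr
    _ = (9 * 256 + 54 * C ^ 2 * C₄) * (X : ℝ) ^ 3 := by ring

end Pool.Agent.Q295.RT
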